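import Mathlib

set_option autoImplicit false

open MeasureTheory

namespace Pool.Agent.H.MP_218893_pr

def vv : Fin 13 → ℤ := ![0, 2, 8, 16, 64, 128, 512, -1, -4, -8, -32, -64, -256]

def cc : Fin 13 → ℕ := ![2000, 28, 18, 45, 20, 35, 13, 13, 35, 20, 45, 18, 28]

noncomputable def nu : Measure (Fin 13) := ∑ i, ((cc i : ENNReal) / 2318) • Measure.dirac i

theorem nu_single (i : Fin 13) : nu {i} = (cc i : ENNReal) / 2318 := by
  simp [nu, Measure.dirac_apply, Set.indicator, Finset.sum_ite_eq']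

instance : IsProbabilityMeasure nu := ⟨by
  have : nu Set.univ = ∑ i, (cc i : ENNReal) / 2318 := by simp [nu]
  rw [this]
  simp only [div_eq_mul_inv, ← Finset.sum_mul, ← Nat.cast_sum]
  rw [show ∑ i, cc i = 2318 by decide]
  exact ENNReal.mul_inv_cancel (by norm_num) (by norm_num)⟩

noncomputable def mu : Measure (Fin 1 → ℤ) := nu.map (fun i _ => vv i)

instance : IsProbabilityMeasure mu :=
  Measure.isProbabilityMeasure_map (measurable_of_countable _).aemeasurable

theorem meas (S : Set (Fin 3 → Fin 1 → ℤ)) (p : Fin 13 → Fin 13 → Fin 13 → Prop)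
    [∀ i j l, Decidable (p i j l)]
    (h : ∀ ω : Fin 3 → Fin 13, (fun i _ => vv (ω i)) ∈ S ↔ p (ω 0) (ω 1) (ω 2)) :
    Measure.pi (fun _ : Fin 3 => mu) S =
      ((∑ i, ∑ j, ∑ l, if p i j l then cc i * cc j * cc l else 0 : ℕ) : ENNReal) *
        (2318⁻¹ * 2318⁻¹ * 2318⁻¹) := by
  classical
  unfold mu
  rw [← Measure.pi_map_pi (fun _ => (measurable_of_countable _).aemeasurable),
    Measure.map_apply (measurable_of_countable _) MeasurableSet.of_discrete]
  have : (fun (x : Fin 3 → Fin 13) i (_ : Fin 1) => vv (x i)) ⁻¹' S =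
      ((Finset.univ.filter (fun ω : Fin 3 → Fin 13 => p (ω 0) (ω 1) (ω 2)) : Finset _) : Set _) := by
    ext ω; simp [h]
  rw [this, ← sum_measure_singleton, Finset.sum_filter]
  simp only [Measure.pi_singleton, nu_single, Fin.prod_univ_three]
  let e : (Fin 3 → Fin 13) ≃ Fin 13 × Fin 13 × Fin 13 :=
    { toFun := fun ω => (ω 0, ω 1, ω 2)
      invFun := fun q => ![q.1, q.2.1, q.2.2]
      left_inv := fun ω => by funext i; fin_cases i <;> rfl
      right_inv := fun q => rfl }
  refine (Fintype.sum_equiv e _ (fun q => if p q.1 q.2.1 q.2.2 then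
    (cc q.1 : ENNReal) / 2318 * ((cc q.2.1 : ENNReal) / 2318) * ((cc q.2.2 : ENNReal) / 2318) else 0)
    (fun _ => rfl)).trans ?_
  simp only [Fintype.sum_prod_type, Nat.cast_sum, Finset.sum_mul]
  refine Finset.sum_congr rfl (fun i _ => Finset.sum_congr rfl (fun j _ =>
    Finset.sum_congr rfl (fun l _ => ?_)))
  split_ifs
  · simp only [div_eq_mul_inv]; push_cast; ring
  · simp

theorem bound (a b c : ℤ) (ha : a = 1 ∨ a = -1) (hb : b = 1 ∨ b = -1) (hc : c = 1 ∨ c = -1) (k : ℤ) :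
    (∑ i, ∑ j, ∑ l, if a * vv i + b * vv j + c * vv l = k then cc i * cc j * cc l else 0 : ℕ) ≤
      8042900000 := by
  by_cases hk : k = 0
  · subst hk
    rcases ha with rfl | rfl <;> rcases hb with rfl | rfl <;> rcases hc with rfl | rfl <;>
      decide +kernel
  · refine le_trans (Finset.sum_le_sum (fun i _ => Finset.sum_le_sum (fun j _ =>
      Finset.sum_le_sum (g := fun l => if i = 0 ∧ j = 0 ∧ l = 0 then 0 else cc i * cc j * cc l)
        (fun l _ => ?_)))) (by decide +kernel)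
    split_ifs with h1 h2
    · obtain ⟨rfl, rfl, rfl⟩ := h2
      exact absurd (by simpa [vv] using h1.symm) hk
    · exact le_rfl
    · exact le_rfl
    · exact Nat.zero_le _

theorem main (w : Fin 3 → ℤ) (hw : ∀ i, w i = 1 ∨ w i = -1) :
    ⨆ k : Fin 1 → ℤ, Measure.pi (fun _ : Fin 3 => mu)
              {ω : Fin 3 → Fin 1 → ℤ | ∑ i, w i • ω i = k} <
    Measure.pi (fun _ : Fin 3 => mu)
      {ω : Fin 3 → Fin 1 → ℤ | ∑ i, (![1, 2, 4] : Fin 3 → ℝ) i •
        (fun j => ((ω i j : ℤ) : ℝ)) = 0} := by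
  rw [meas _ (fun i j l => vv i + 2 * vv j + 4 * vv l = 0) (fun ω => by
    simp only [Set.mem_ofPred_eq, Fin.sum_univ_three, funext_iff, Fin.forall_fin_one]
    simp only [Pi.add_apply, Pi.smul_apply, smul_eq_mul, Pi.zero_apply]
    simp only [Matrix.cons_val_zero, Matrix.cons_val_one, Matrix.cons_val, one_mul]
    norm_cast)]
  refine lt_of_le_of_lt (iSup_le (fun k => ?_)) (ENNReal.mul_lt_mul_left (b := (8042900000 : ℕ))
    (by simp) (by finiteness) ?_)
  · rw [meas _ (fun i j l => w 0 * vv i + w 1 * vv j + w 2 * vv l = k 0) (fun ω => by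
      simp [Fin.sum_univ_three, funext_iff])]
    gcongr
    exact bound _ _ _ (hw 0) (hw 1) (hw 2) _
  · exact Nat.cast_lt.2 (by decide +kernel)

end Pool.Agent.H.MP_218893_pr
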